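import Mathlib

set_option autoImplicit false

namespace Pool.Agent.Results.MP_a23033_al.SolubleRankTwo

open Quaternion
open scoped commutatorElement

section
variable {A : Type} [Ring A]

/-- an odd polynomial -/
def ee (y : A) : A := y * (y * y - 1)
/-- first Bezout coefficient -/
def uu (x y : A) : A := 1 - 2 * ee y + (2 * y * (1 + y) + 2 * y * (1 - y) * x) * (y - 1) * ee y
/-- second Bezout coefficient -/
def vv (y : A) : A := (1 - 2 * ee y) * (y - 1) * ee y

theorem bez {x y : A} (h : x * y = -(y * x)) :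
    uu x y + 2 * y * ((y * y - 1) * uu x y + (1 - x) * (1 + y) * vv y) = 1 := by
  have h' : ∀ z, x * (y * z) = -(y * (x * z)) := fun z => by
    rw [← mul_assoc, h, neg_mul, mul_assoc]
  simp only [uu, vv, ee, two_mul, mul_add, add_mul, mul_sub, sub_mul, mul_assoc, h, h', mul_one,
    one_mul, mul_neg, neg_mul, neg_neg]
  abel

end

/-- the ambient ring -/
abbrev U : Type := AddMonoidAlgebra ℍ[ℤ] ℤ

/-- quaternion from coordinates -/
def qq (a b c d : ℤ) : ℍ[ℤ] := ⟨a, b, c, d⟩

theorem qq_mul (a b c d a' b' c' d' : ℤ) : qq a b c d * qq a' b' c' d' =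
    qq (a * a' - b * b' - c * c' - d * d') (a * b' + b * a' + c * d' - d * c')
      (a * c' - b * d' + c * a' + d * b') (a * d' + b * c' - c * b' + d * a') := by
  ext <;> simp only [re_mul, imI_mul, imJ_mul, imK_mul] <;> rfl

theorem qq_add (a b c d a' b' c' d' : ℤ) : qq a b c d + qq a' b' c' d' =
    qq (a + a') (b + b') (c + c') (d + d') := rfl

theorem qq_neg (a b c d : ℤ) : -qq a b c d = qq (-a) (-b) (-c) (-d) := rfl

/-- monomial from coordinates -/
noncomputable def sg (k a b c d : ℤ) : U := .single k (qq a b c d)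

theorem sg_mul (k a b c d k' a' b' c' d' : ℤ) : sg k a b c d * sg k' a' b' c' d' =
    sg (k + k') (a * a' - b * b' - c * c' - d * d') (a * b' + b * a' + c * d' - d * c')
      (a * c' - b * d' + c * a' + d * b') (a * d' + b * c' - c * b' + d * a') := by
  rw [sg, sg, AddMonoidAlgebra.single_mul_single, qq_mul, sg]

theorem sg_add (k a b c d a' b' c' d' : ℤ) : sg k a b c d + sg k a' b' c' d' =
    sg k (a + a') (b + b') (c + c') (d + d') := by
  rw [sg, sg, ← AddMonoidAlgebra.single_add, qq_add, sg]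

theorem sg_neg (k a b c d : ℤ) : -sg k a b c d = sg k (-a) (-b) (-c) (-d) := by
  rw [sg, ← AddMonoidAlgebra.single_neg, qq_neg, sg]

theorem sg_zero (k : ℤ) : sg k 0 0 0 0 = 0 := AddMonoidAlgebra.single_zero k

theorem one_eq : (1 : U) = sg 0 1 0 0 0 := rfl

theorem nat_eq (n : ℕ) [n.AtLeastTwo] : (OfNat.ofNat n : U) = sg 0 n 0 0 0 := by
  change (n : U) = _
  rw [AddMonoidAlgebra.natCast_def]; congr 1

/-- first unit -/
noncomputable def xx : Uˣ :=
  ⟨sg 1 0 1 0 0, sg (-1) 0 (-1) 0 0, by simp [sg_mul, one_eq], by simp [sg_mul, one_eq]⟩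

/-- second unit -/
noncomputable def yy : Uˣ :=
  ⟨sg 0 0 0 1 0, sg 0 0 0 (-1) 0, by simp [sg_mul, one_eq], by simp [sg_mul, one_eq]⟩

theorem xy : xx * yy = -(yy * xx) := by
  ext1
  simp [xx, yy, sg_mul, sg_neg]

/-- the acting group -/
noncomputable def H : Subgroup Uˣ := Subgroup.closure {xx, yy}

theorem Hc (a b : H) : (a : Uˣ) * b = b * a ∨ (a : Uˣ) * b = -(b * a) := by
  obtain ⟨a, ha⟩ := a
  obtain ⟨b, hb⟩ := b
  have inv : ∀ a b : Uˣ, (a * b = b * a ∨ a * b = -(b * a)) →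
      (a⁻¹ * b = b * a⁻¹ ∨ a⁻¹ * b = -(b * a⁻¹)) := by
    rintro a b (h | h)
    · exact .inl (Commute.inv_left h)
    · refine .inr (mul_left_cancel (a := a) ?_)
      rw [mul_neg, ← mul_assoc a b, h]; simp
  have mul : ∀ a a' b : Uˣ, (a * b = b * a ∨ a * b = -(b * a)) →
      (a' * b = b * a' ∨ a' * b = -(b * a')) →
      (a * a' * b = b * (a * a') ∨ a * a' * b = -(b * (a * a'))) := by
    rintro a a' b (h | h) (h' | h') <;>
      simp [mul_assoc a a', h', ← mul_assoc a b, h, mul_assoc b a]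
  have symm : ∀ a b : Uˣ, (a * b = b * a ∨ a * b = -(b * a)) →
      (b * a = a * b ∨ b * a = -(a * b)) := by
    rintro a b (h | h) <;> simp [h]
  induction ha, hb using Subgroup.closure_induction₂ with
  | mem a b ha hb => rcases ha with rfl | rfl <;> rcases hb with rfl | rfl <;> simp [xy]
  | one_left => simp
  | one_right => simp
  | mul_left _ _ _ _ _ _ h h' => exact mul _ _ _ h h'
  | mul_right _ _ _ _ _ _ h h' => exact symm _ _ (mul _ _ _ (symm _ _ h) (symm _ _ h'))
  | inv_left _ _ _ _ h => exact inv _ _ h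
  | inv_right _ _ _ _ h => exact symm _ _ (inv _ _ (symm _ _ h))

/-- the affine group -/
@[ext] structure M where
  /-- translation part -/
  m : U
  /-- linear part -/
  n : H

/-- linear part as a ring element -/
@[simp] noncomputable def M.l (a : M) : U := ((a.n : Uˣ) : U)

noncomputable instance : Mul M := ⟨fun a b => ⟨a.m + a.l * b.m, a.n * b.n⟩⟩
noncomputable instance : One M := ⟨⟨0, 1⟩⟩
noncomputable instance : Inv M := ⟨fun a => ⟨-(((a.n⁻¹ : H) : Uˣ) * a.m), a.n⁻¹⟩⟩

@[simp] theorem mul_m (a b : M) : (a * b).m = a.m + a.l * b.m := rfl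
@[simp] theorem mul_n (a b : M) : (a * b).n = a.n * b.n := rfl
@[simp] theorem one_m : (1 : M).m = 0 := rfl
@[simp] theorem one_n : (1 : M).n = 1 := rfl
@[simp] theorem inv_m (a : M) : (a⁻¹).m = -(((a.n⁻¹ : H) : Uˣ) * a.m) := rfl
@[simp] theorem inv_n (a : M) : (a⁻¹).n = a.n⁻¹ := rfl

noncomputable instance : Group M := Group.ofLeftAxioms
  (fun a b c => by ext1 <;> simp [mul_add, mul_assoc, add_assoc])
  (fun a => by ext1 <;> simp) (fun a => by ext1 <;> simp)

/-- free group of rank two -/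
abbrev F : Type := FreeGroup (Fin 2)

/-- universally realisable translations -/
def Good (ν : (F →* M) → U) : Prop := ∃ c : F, ∀ φ : F →* M, φ c = ⟨ν φ, 1⟩

/-- universal coefficients -/
noncomputable def R : Subring ((F →* M) → U) where
  carrier := {a | ∀ ν, Good ν → Good (a * ν)}
  mul_mem' ha hb ν h := by rw [mul_assoc]; exact ha _ (hb _ h)
  one_mem' ν h := by rwa [one_mul]
  zero_mem' ν _ := ⟨1, fun φ => by simp; rfl⟩
  add_mem' ha hb ν h := by
    obtain ⟨c, hc⟩ := ha ν h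
    obtain ⟨d, hd⟩ := hb ν h
    exact ⟨c * d, fun φ => by rw [map_mul, hc, hd]; ext1 <;> simp [add_mul]⟩
  neg_mem' ha ν h := by
    obtain ⟨c, hc⟩ := ha ν h
    exact ⟨c⁻¹, fun φ => by rw [map_inv, hc]; ext1 <;> simp⟩

/-- linear part of a word -/
noncomputable def ev (f : F) : (F →* M) → U := fun φ => (φ f).l

theorem ev_mem (f : F) : ev f ∈ R := fun ν ⟨c, hc⟩ =>
  ⟨f * c * f⁻¹, fun φ => by
    rw [map_mul, map_mul, map_inv, hc]; ext1 <;> simp [ev, ← mul_assoc]⟩

/-- first generator -/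
abbrev X : F := FreeGroup.of 0
/-- second generator -/
abbrev Y : F := FreeGroup.of 1

/-- the basic law -/
noncomputable def mu (φ : F →* M) : U :=
  (ev Y φ * ev Y φ - 1) * (φ X).m + (1 - ev X φ) * (1 + ev Y φ) * (φ Y).m

theorem good_mu : Good mu := ⟨Y * Y * X * (Y * Y)⁻¹ * X⁻¹, fun φ => by
  have h : (φ Y).n * (φ Y).n * (φ X).n = (φ X).n * ((φ Y).n * (φ Y).n) := by
    ext1
    rcases Hc (φ Y).n (φ X).n with h | h <;>
      simp [mul_assoc, h, ← mul_assoc (φ Y).n.1 (φ X).n.1]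
  have e : φ (Y * Y * X) = ⟨mu φ, 1⟩ * φ (X * (Y * Y)) := by
    ext1
    · simp [mu, ev]; noncomm_ring
    · simpa using h
  rw [mul_assoc, ← mul_inv_rev, map_mul, e, map_inv, mul_inv_cancel_right]⟩

/-- the switch -/
noncomputable def δ : (F →* M) → U := 1 - ev (X * Y * X⁻¹ * Y⁻¹)

theorem hδ (φ : F →* M) : δ φ = 0 ∨ (δ φ = 2 ∧ ev X φ * ev Y φ = -(ev Y φ * ev X φ)) := by
  rcases Hc (φ X).n (φ Y).n with h | h
  · left; simp [δ, ev, M.l, ← Units.val_mul, h]
  · right
    refine ⟨?_, by simp [ev, M.l, ← Units.val_mul, h]⟩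
    simp [δ, ev, M.l, ← Units.val_mul, h]
    norm_num

/-- augmentation -/
noncomputable def aug : U →+* ℍ[ℤ] :=
  AddMonoidAlgebra.liftNCRingHom (RingHom.id _) 1 fun _ _ => Commute.one_right _

theorem hom {w w' : U} {c : ℍ[ℤ]} (hc : c ≠ 0) (h : w' * w = .single 0 c) :
    ∃ e g, w = .single e g := by
  have h0 : w' * w ≠ 0 := by rw [h]; exact AddMonoidAlgebra.single_ne_zero.2 hc
  have h1 : w'.coeff.support.Nonempty := by simpa using left_ne_zero_of_mul h0
  have h2 : w.coeff.support.Nonempty := by simpa using right_ne_zero_of_mul h0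
  have key : ∀ a ∈ w'.coeff.support, ∀ b ∈ w.coeff.support,
      UniqueAdd w'.coeff.support w.coeff.support a b → a + b = 0 := by
    intro a ha b hb hu
    have := AddMonoidAlgebra.coeff_mul_add_of_uniqueAdd hu
    by_contra hne
    rw [h, AddMonoidAlgebra.coeff_single, Finsupp.single_eq_of_ne hne] at this
    exact mul_ne_zero (Finsupp.mem_support_iff.1 ha) (Finsupp.mem_support_iff.1 hb) this.symm
  have e1 := key _ (Finset.max'_mem _ h1) _ (Finset.max'_mem _ h2) fun a b ha hb e => by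
    have := Finset.le_max' _ _ ha
    have := Finset.le_max' _ _ hb
    omega
  have e2 := key _ (Finset.min'_mem _ h1) _ (Finset.min'_mem _ h2) fun a b ha hb e => by
    have := Finset.min'_le _ _ ha
    have := Finset.min'_le _ _ hb
    omega
  refine ⟨w.coeff.support.max' h2, w.coeff (w.coeff.support.max' h2), ?_⟩
  apply AddMonoidAlgebra.coeff_injective
  refine Finsupp.support_subset_singleton.1 fun b hb => Finset.mem_singleton.2 ?_
  have := Finset.min'_le_max' _ h1
  have := Finset.min'_le _ _ hb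
  have := Finset.le_max' _ _ hb
  omega

/-- first image -/
noncomputable def α : U := sg 0 10 0 6 0 + sg 1 0 (-6) 0 (-10)

theorem core (w a b a' b' : U) (h1 : a * w = α) (h2 : b * w = 17)
    (h3 : w = a' * α + b' * 17) : False := by
  rw [nat_eq, sg] at h2
  obtain ⟨e, g, rfl⟩ := hom (fun h => by simpa [qq] using congrArg (·.re) h) h2
  have c := fun (z : U) (k : ℤ) => AddMonoidAlgebra.coeff_mul_single_eq_coeff_mul
    (x := z) (m := e) (r := g) (m₁ := k) (k - e) (fun m _ => by omega)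
  have e0 := c a 0
  have e1 := c a 1
  have e2 := c b 0
  rw [h1] at e0 e1
  rw [h2] at e2
  simp [α, sg, -LaurentPolynomial.single_eq_C_mul_T] at e0 e1 e2
  have e4 : (qq 40 0 0 0 * a.coeff (-e) + qq 0 (-24) 0 0 * a.coeff (1 - e) +
      qq (-15) 0 0 0 * b.coeff (-e)) * g = 1 := by
    simp only [add_mul, mul_assoc, ← e0, ← e1, ← e2, qq_mul, qq_add]; rfl
  have e5 := congrArg aug h3
  simp only [aug, α, sg, map_add, map_mul, AddMonoidAlgebra.liftNCRingHom_single, map_ofNat,
    RingHom.id_apply, MonoidHom.one_apply, mul_one, qq_add] at e5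
  rw [e5, mul_add, ← mul_assoc, ← mul_assoc, ← eq_sub_iff_add_eq] at e4
  have e6 := congrArg normSq e4
  rw [map_mul] at e6
  obtain ⟨B, N, e6⟩ : ∃ (B : ℍ[ℤ]) (N : ℤ), N * normSq (qq (10 + 0) (0 + -6) (6 + 0) (0 + -10)) =
    normSq (1 - B * 17) := ⟨_, _, e6⟩
  have e7 : normSq (qq (10 + 0) (0 + -6) (6 + 0) (0 + -10)) = 272 := by
    rw [normSq_def']; rfl
  have e8 : 1 - B * 17 = qq 1 0 0 0 + -(qq B.re B.imI B.imJ B.imK * qq 17 0 0 0) :=
    sub_eq_add_neg _ _
  rw [e7, e8, qq_mul, qq_neg, qq_add, normSq_def'] at e6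
  simp only [qq] at e6
  have : (17 : ℤ) ∣ 1 := ⟨16 * N + 2 * B.re - 17 * (B.re ^ 2 + B.imI ^ 2 + B.imJ ^ 2 + B.imK ^ 2), by
    linear_combination -e6⟩
  norm_num at this

theorem row (n : Fin 2 → H) (w : F) : ∃ (d e : U) (k : H), ∀ φ : F →* M, (∀ i, (φ (.of i)).n = n i) →
    φ w = ⟨d * (φ X).m + e * (φ Y).m, k⟩ := by
  induction w using FreeGroup.induction_on with
  | C1 => exact ⟨0, 0, 1, fun φ _ => by simp; rfl⟩
  | of i =>
    fin_cases i
    · exact ⟨1, 0, n 0, fun φ h => by ext1 <;> simp [h]⟩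
    · exact ⟨0, 1, n 1, fun φ h => by ext1 <;> simp [h]⟩
  | inv_of i h =>
    obtain ⟨d, e, k, h⟩ := h
    exact ⟨-((k⁻¹ : H) : Uˣ) * d, -((k⁻¹ : H) : Uˣ) * e, k⁻¹, fun φ h' => by
      rw [map_inv, h φ h']; ext1 <;> simp [mul_add, mul_assoc, add_comm]⟩
  | mul x y h h2 =>
    obtain ⟨d, e, k, h⟩ := h
    obtain ⟨d', e', k', h2⟩ := h2
    exact ⟨d + (k : Uˣ) * d', e + (k : Uˣ) * e', k * k', fun φ h' => by
      rw [map_mul, h φ h', h2 φ h']; ext1
      · simp [mul_add, add_mul, mul_assoc]; abel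
      · rfl⟩

/-- the laws in two variables -/
noncomputable def V : Subgroup F := ⨅ φ : F →* M, φ.ker

theorem mem_V {w : F} : w ∈ V ↔ ∀ φ : F →* M, φ w = 1 := Subgroup.mem_iInf


/-- The verbal subgroup of the free group of rank `r` belonging to the set of laws `W`; the quotient
by it is the relatively free group of rank `r` of the variety defined by `W`. -/
def Verbal (W : Set (FreeGroup ℕ)) (r : ℕ) : Subgroup (FreeGroup (Fin r)) :=
  Subgroup.closure {x : FreeGroup (Fin r) | ∃ (f : ℕ → FreeGroup (Fin r)) (w : FreeGroup ℕ),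
    w ∈ W ∧ FreeGroup.lift f w = x}

/-- Modulo `V` the element `h` is a member `a i` of a basis `a`: the endomorphism sending the free
generators to `a` is invertible modulo `V`, with inverse given by `b`. -/
def Prim {r : ℕ} (V : Subgroup (FreeGroup (Fin r))) (h : FreeGroup (Fin r)) : Prop :=
  ∃ (a b : Fin r → FreeGroup (Fin r)) (i : Fin r),
    (∀ j : Fin r, (FreeGroup.lift b (a j))⁻¹ * FreeGroup.of j ∈ V) ∧
    (∀ j : Fin r, (FreeGroup.lift a (b j))⁻¹ * FreeGroup.of j ∈ V) ∧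
    (a i)⁻¹ * h ∈ V

/-- In the relatively free group of rank `r` of the variety with laws `W` there are a non-primitive
element `h` and an injective endomorphism (induced by `g`) mapping `h` to a primitive element. -/
def Example (W : Set (FreeGroup ℕ)) (r : ℕ) : Prop :=
  ∃ (h : FreeGroup (Fin r)) (g : Fin r → FreeGroup (Fin r)),
    ¬ Prim (Verbal W r) h ∧
    (∀ w : FreeGroup (Fin r), FreeGroup.lift g w ∈ Verbal W r → w ∈ Verbal W r) ∧
    Prim (Verbal W r) (FreeGroup.lift g h)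

/-- the linear part as a homomorphism -/
noncomputable def pr : M →* Uˣ where
  toFun a := (a.n : Uˣ)
  map_one' := rfl
  map_mul' _ _ := rfl

/-- words whose linear part is `1` or `-1` -/
noncomputable def CC (φ : FreeGroup ℕ →* M) : Subgroup (FreeGroup ℕ) where
  carrier := {u | pr (φ u) = 1 ∨ pr (φ u) = -1}
  one_mem' := by left; simp
  mul_mem' := by
    rintro a b (ha | ha) (hb | hb) <;> simp [map_mul, ha, hb]
  inv_mem' := by
    rintro a (ha | ha) <;> simp [map_inv, ha]

theorem lcs (φ : FreeGroup ℕ →* M) :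
    (⊤ : Subgroup (FreeGroup ℕ)).lowerCentralSeries 2 ≤ (pr.comp φ).ker := by
  have h1 : ⁅(⊤ : Subgroup (FreeGroup ℕ)), (⊤ : Subgroup (FreeGroup ℕ))⁆ ≤ CC φ := by
    refine Subgroup.commutator_le.2 fun a _ b _ => ?_
    show pr (φ ⁅a, b⁆) = 1 ∨ pr (φ ⁅a, b⁆) = -1
    rw [map_commutatorElement, map_commutatorElement, commutatorElement_def]
    have h := Hc (φ a).n (φ b).n
    change (pr (φ a)) * (pr (φ b)) = (pr (φ b)) * (pr (φ a)) ∨
      (pr (φ a)) * (pr (φ b)) = -((pr (φ b)) * (pr (φ a))) at h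
    rcases h with h | h
    · left; rw [h]; group
    · right
      rw [h, neg_mul, neg_mul]
      congr 1
      group
  rw [Subgroup.lowerCentralSeries_succ, Subgroup.lowerCentralSeries_succ,
    Subgroup.lowerCentralSeries_zero]
  refine (Subgroup.commutator_mono h1 le_rfl).trans (Subgroup.commutator_le.2 fun a ha b _ => ?_)
  change pr (φ ⁅a, b⁆) = 1
  rw [map_commutatorElement, map_commutatorElement, commutatorElement_def]
  rcases ha with h | h
  · rw [h]; simp
  · rw [h]; simp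

theorem laws : ∀ w ∈ ⁅(⊤ : Subgroup (FreeGroup ℕ)).lowerCentralSeries 2,
    (⊤ : Subgroup (FreeGroup ℕ)).lowerCentralSeries 2⁆, ∀ φ : FreeGroup ℕ →* M, φ w = 1 := by
  intro w hw φ
  suffices h : ⁅(⊤ : Subgroup (FreeGroup ℕ)).lowerCentralSeries 2,
      (⊤ : Subgroup (FreeGroup ℕ)).lowerCentralSeries 2⁆ ≤ φ.ker from h hw
  refine Subgroup.commutator_le.2 fun a ha b hb => ?_
  have ha' : pr (φ a) = 1 := lcs φ ha
  have hb' : pr (φ b) = 1 := lcs φ hb
  have ha2 : (φ a).n = 1 := Subtype.ext ha'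
  have hb2 : (φ b).n = 1 := Subtype.ext hb'
  change φ ⁅a, b⁆ = 1
  rw [map_commutatorElement, commutatorElement_eq_one_iff_mul_comm]
  ext1
  · simp [ha2, hb2, add_comm]
  · simp [ha2, hb2]

theorem cyc (w : FreeGroup (Fin 1)) : ∃ n : ℤ, w = FreeGroup.of 0 ^ n := by
  induction w using FreeGroup.induction_on with
  | C1 => exact ⟨0, by simp⟩
  | of i => exact ⟨1, by rw [Subsingleton.elim i 0]; simp⟩
  | inv_of i h => exact ⟨-1, by rw [Subsingleton.elim i 0]; simp⟩
  | mul x y hx hy =>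
    obtain ⟨m, rfl⟩ := hx
    obtain ⟨n, rfl⟩ := hy
    exact ⟨m + n, (zpow_add _ _ _).symm⟩

/-- in rank less than two there are no examples -/
theorem low (W : Set (FreeGroup ℕ)) (r : ℕ) (hr : r < 2) : ¬ Example W r := by
  rintro ⟨h, g, h1, -, a, b, i, ha, hb, hi⟩
  interval_cases r
  · exact i.elim0
  · apply h1
    generalize Verbal W 1 = V at *
    obtain rfl : i = 0 := Subsingleton.elim _ _
    obtain ⟨m, rfl⟩ := cyc h
    obtain ⟨k, hk⟩ := cyc (g 0)
    obtain ⟨p, hp⟩ := cyc (a 0)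
    obtain ⟨q, hq⟩ := cyc (b 0)
    have e1 := hb 0
    simp only [map_zpow, FreeGroup.lift_apply_of, hk, hp, hq] at hi e1
    have e3 := V.mul_mem (V.inv_mem (V.zpow_mem hi q)) e1
    have e4 : (FreeGroup.of (0 : Fin 1)) ^ (1 - k * q * m) ∈ V := by
      convert e3 using 1
      group
    refine ⟨fun _ => FreeGroup.of 0 ^ m, fun _ => FreeGroup.of 0 ^ (k * q), 0, ?_, ?_, by simp⟩
    · intro j
      obtain rfl : j = 0 := Subsingleton.elim _ _
      simp only [map_zpow, FreeGroup.lift_apply_of]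
      convert e4 using 1
      group
    · intro j
      obtain rfl : j = 0 := Subsingleton.elim _ _
      simp only [map_zpow, FreeGroup.lift_apply_of]
      convert e4 using 1
      group

theorem base : Example {w | ∀ φ : FreeGroup ℕ →* M, φ w = 1} 2 := by
  have hV : Verbal {w | ∀ φ : FreeGroup ℕ →* M, φ w = 1} 2 = V := by
    refine (le_antisymm (fun w hw => ?_) ((Subgroup.closure_le _).2 ?_)).symm
    · refine Subgroup.subset_closure ?_
      refine ⟨fun n => if h : n < 2 then .of ⟨n, h⟩ else 1, FreeGroup.map Fin.val w,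
        fun φ => mem_V.1 hw (φ.comp (FreeGroup.map Fin.val)), ?_⟩
      change ((FreeGroup.lift _).comp (FreeGroup.map Fin.val)) w = MonoidHom.id _ w
      congr 1; ext i; fin_cases i <;> simp
    · rintro _ ⟨f, w, hw, rfl⟩
      exact mem_V.2 fun φ => hw (φ.comp (FreeGroup.lift f))
  unfold Example Prim
  rw [hV]
  have hX := ev_mem X
  have hY := ev_mem Y
  have h2 : (2 : (F →* M) → U) ∈ R := ofNat_mem R 2
  have hk : Good (δ * ev Y * mu) := mul_mem (sub_mem (one_mem _) (ev_mem _)) hY _ good_mu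
  obtain ⟨c0, hc0⟩ : Good (-uu (ev X) (ev Y) * (δ * ev Y * mu)) := by
    refine (?_ : _ ∈ R) _ hk
    unfold uu ee
    apply_rules (maxDepth := 100) [neg_mem, add_mem, sub_mem, mul_mem, one_mem]
  obtain ⟨c1, hc1⟩ : Good (-vv (ev Y) * (δ * ev Y * mu)) := by
    refine (?_ : _ ∈ R) _ hk
    unfold vv ee
    apply_rules (maxDepth := 100) [neg_mem, add_mem, sub_mem, mul_mem, one_mem]
  obtain ⟨c, hc⟩ := hk
  have g0 : ∀ φ : F →* M, (φ.comp (FreeGroup.lift ![c0 * X, c1 * Y])) X =
      ⟨(φ X).m - uu (ev X φ) (ev Y φ) * (δ φ * ev Y φ * mu φ), (φ X).n⟩ := fun φ => by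
    ext1 <;> simp [hc0, sub_eq_neg_add]; exact .inl rfl
  have g1 : ∀ φ : F →* M, (φ.comp (FreeGroup.lift ![c0 * X, c1 * Y])) Y =
      ⟨(φ Y).m - vv (ev Y φ) * (δ φ * ev Y φ * mu φ), (φ Y).n⟩ := fun φ => by
    ext1 <;> simp [hc1, sub_eq_neg_add]; exact .inl rfl
  refine ⟨c * X, ![c0 * X, c1 * Y], ?_, fun w hw => mem_V.2 fun φ => ?_,
    FreeGroup.of, FreeGroup.of, 0, by simp, by simp, mem_V.2 fun φ => ?_⟩
  · rintro ⟨a, b, i, -, hb, hi⟩
    let n : Fin 2 → H := ![⟨xx, Subgroup.subset_closure (by simp)⟩,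
      ⟨yy, Subgroup.subset_closure (by simp)⟩]
    let φ : F →* M := FreeGroup.lift ![⟨α, n 0⟩, ⟨17, n 1⟩]
    have p0 : φ X = ⟨α, n 0⟩ := by simp [φ]
    have p1 : φ Y = ⟨17, n 1⟩ := by simp [φ]
    have e0 : (φ (a i)).m = 0 := by
      have := mem_V.1 hi φ
      rw [map_mul, map_inv, inv_mul_eq_one] at this
      rw [this, map_mul, hc]
      have hd : δ φ = 2 := by
        simp [δ, ev, M.l, ← Units.val_mul, p0, p1, n, xy]
        norm_num
      simp only [mul_m, Pi.mul_apply, hd, mu, ev, p0, p1, M.l, n]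
      simp [xx, yy, α, nat_eq, one_eq, mul_add, add_mul, sub_eq_add_neg, sg_mul, sg_neg, sg_add]
      rw [add_add_add_comm (sg _ _ _ _ _), add_add_add_comm]
      simp [sg_add, sg_zero]
    obtain ⟨d, e, k, h⟩ := row n (a (1 - i))
    replace h := congrArg M.m (h φ fun j => by fin_cases j <;> simp [φ])
    rw [p0, p1] at h
    have key : ∀ w : F, ∃ z, z * (φ (a (1 - i))).m = (φ (FreeGroup.lift a w)).m := by
      intro w
      obtain ⟨d, e, k, h'⟩ := row (fun j => (φ (a j)).n) w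
      replace h' := congrArg M.m (h' (φ.comp (FreeGroup.lift a)) fun j => by simp)
      clear h
      fin_cases i
      · exact ⟨e, by simpa [show (φ (a 0)).m = 0 from e0] using h'.symm⟩
      · exact ⟨d, by simpa [show (φ (a 1)).m = 0 from e0] using h'.symm⟩
    have hb' : ∀ j, φ (FreeGroup.lift a (b j)) = φ (.of j) := fun j => by
      have := mem_V.1 (hb j) φ
      rwa [map_mul, map_inv, inv_mul_eq_one] at this
    obtain ⟨z0, h0⟩ := key (b 0)
    obtain ⟨z1, h1⟩ := key (b 1)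
    rw [hb', p0] at h0
    rw [hb', p1] at h1
    exact core _ _ _ _ _ h0 h1 h
  · obtain ⟨d, e, k, h⟩ := row (fun j => (φ (.of j)).n) w
    have key : ∀ ψ : F →* M, (∀ j, (ψ (.of j)).n = (φ (.of j)).n) → k = 1 ∧
        d * (ψ X).m + e * (ψ Y).m = (d * uu (ev X φ) (ev Y φ) + e * vv (ev Y φ)) *
          (δ ψ * ev Y φ * mu ψ) := by
      intro ψ hψ
      have h1 := h (ψ.comp (FreeGroup.lift ![c0 * X, c1 * Y])) fun j => by
        fin_cases j
        · exact (congrArg M.n (g0 ψ)).trans (hψ 0)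
        · exact (congrArg M.n (g1 ψ)).trans (hψ 1)
      rw [g0, g1, show (ψ.comp (FreeGroup.lift ![c0 * X, c1 * Y])) w = 1 from mem_V.1 hw ψ] at h1
      refine ⟨(congrArg M.n h1).symm, ?_⟩
      have h3 := congrArg M.m h1
      simp only [one_m, ev, M.l, hψ] at h3 ⊢
      rw [← sub_eq_zero, h3]; noncomm_ring
    rw [h φ fun _ => rfl, (key φ fun _ => rfl).1, (key φ fun _ => rfl).2]
    rcases hδ φ with h0 | ⟨h0, h1⟩
    · simp [h0]; rfl
    let ψ : F →* M := FreeGroup.lift ![⟨uu (ev X φ) (ev Y φ), (φ X).n⟩, ⟨vv (ev Y φ), (φ Y).n⟩]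
    have p0 : ψ X = ⟨uu (ev X φ) (ev Y φ), (φ X).n⟩ := by simp [ψ]
    have p1 : ψ Y = ⟨vv (ev Y φ), (φ Y).n⟩ := by simp [ψ]
    have h3 := (key ψ fun j => by fin_cases j <;> simp [ψ]).2
    have h4 : δ ψ = 2 := by rw [← h0]; simp [δ, ev, M.l, p0, p1]
    have h5 : uu (ev X φ) (ev Y φ) + 2 * ev Y φ * mu ψ = 1 := by
      rw [← bez h1]; simp [mu, ev, M.l, p0, p1]
    rw [h4, p0, p1, eq_sub_of_add_eq' h5, mul_sub, mul_one, eq_sub_iff_add_eq, add_eq_left,
      mul_eq_zero] at h3
    rcases h3 with h3 | h3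
    · simp [h3]; rfl
    rw [h3, zero_add, mul_assoc] at h5
    have := congrArg (fun z => (aug z).re) h5
    simp [two_mul] at this
    omega
  · rw [map_mul, map_inv, inv_mul_eq_one]
    change _ = (φ.comp (FreeGroup.lift ![c0 * X, c1 * Y])) (c * X)
    have e0 : ev X (φ.comp (FreeGroup.lift ![c0 * X, c1 * Y])) = ev X φ := by rw [ev, g0]; rfl
    have e1 : ev Y (φ.comp (FreeGroup.lift ![c0 * X, c1 * Y])) = ev Y φ := by rw [ev, g1]; rfl
    have e2 : δ (φ.comp (FreeGroup.lift ![c0 * X, c1 * Y])) = δ φ := by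
      simp only [δ, ev, Pi.sub_apply, map_mul, map_inv, g0, g1, M.l, mul_n, inv_n]; rfl
    rw [map_mul, hc]
    ext1
    · simp only [mul_m, Pi.mul_apply, mu, e0, e1, e2, g0, g1, M.l, OneMemClass.coe_one,
        Units.val_one, one_mul]
      rcases hδ φ with h0 | ⟨h0, h1⟩
      · simp [h0]
      have := bez h1
      rw [h0, ← sub_eq_zero]
      replace this := congrArg (· * (2 * ev Y φ * mu φ)) (sub_eq_zero.2 this)
      simp only [zero_mul, mu] at this
      rw [← this]; noncomm_ring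
    · simp [g0]




/-- (1) There is a variety of groups, all of whose members are abelian-by-(nilpotent of class at most
two) (its laws contain every word in the commutator subgroup of the third term of the lower central
series), whose relatively free group of rank two has a non-primitive element that is mapped to a
primitive element by some injective endomorphism.
(2) In rank zero or one this is impossible, for every variety. -/
theorem result :
    (∃ W : Set (FreeGroup ℕ),
      (∀ w ∈ ⁅(⊤ : Subgroup (FreeGroup ℕ)).lowerCentralSeries 2,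
        (⊤ : Subgroup (FreeGroup ℕ)).lowerCentralSeries 2⁆, w ∈ W) ∧ Example W 2) ∧
    ∀ (W : Set (FreeGroup ℕ)) (r : ℕ), r < 2 → ¬ Example W r :=
  ⟨⟨_, laws, base⟩, low⟩

end Pool.Agent.Results.MP_a23033_al.SolubleRankTwo
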